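import Pool.Agent.W978.QO.Stm

/-! Part QO-L2 of project QO (helper978). -/

set_option autoImplicit false

open Finset

namespace Pool.Agent.W831.QO

open Pool.Agent.W978.QN Pool.Agent.W978.QO

/-- the positive box -/
noncomputable def PB (X : ℕ) : Finset (Fin 3 → ℤ) :=
  Fintype.piFinset fun _ => Finset.Ioc (0 : ℤ) X

lemma card_PB (X : ℕ) : (PB X).card = X ^ 3 := by
  simp [PB, Fintype.card_piFinset]

lemma prim_of {v : Fin 3 → ℤ} (h0 : 0 < v 0) (h : ∀ l : ℤ, 2 ≤ l → ¬ ∀ i, l ∣ v i) :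
    Prim v := by
  set g : ℕ := Int.gcd (Int.gcd (v 0) (v 1) : ℤ) (v 2) with hg
  have hd1 : (g : ℤ) ∣ (Int.gcd (v 0) (v 1) : ℤ) := Int.gcd_dvd_left _ _
  have hd2 : (g : ℤ) ∣ v 2 := Int.gcd_dvd_right _ _
  have hd0 : (g : ℤ) ∣ v 0 := hd1.trans (Int.gcd_dvd_left _ _)
  have hd3 : (g : ℤ) ∣ v 1 := hd1.trans (Int.gcd_dvd_right _ _)
  have hg0 : g ≠ 0 := by
    intro h1
    rw [h1] at hd0
    simp at hd0
    omega
  have hg1 : g = 1 := by
    by_contra h1
    apply h g (by omega)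
    intro i
    fin_cases i
    · exact hd0
    · exact hd3
    · exact hd2
  have e1 := Int.gcd_eq_gcd_ab (v 0) (v 1)
  have e2 := Int.gcd_eq_gcd_ab (Int.gcd (v 0) (v 1) : ℤ) (v 2)
  rw [← hg, hg1] at e2
  refine ⟨![Int.gcdA (v 0) (v 1) * Int.gcdA (Int.gcd (v 0) (v 1) : ℤ) (v 2),
    Int.gcdB (v 0) (v 1) * Int.gcdA (Int.gcd (v 0) (v 1) : ℤ) (v 2),
    Int.gcdB (Int.gcd (v 0) (v 1) : ℤ) (v 2)], ?_⟩
  rw [Fin.sum_univ_three]
  simp only [Matrix.cons_val_zero, Matrix.cons_val_one, Matrix.cons_val]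
  push_cast at e2
  calc _ = (v 0 * Int.gcdA (v 0) (v 1) + v 1 * Int.gcdB (v 0) (v 1)) *
        Int.gcdA (Int.gcd (v 0) (v 1) : ℤ) (v 2) +
        v 2 * Int.gcdB (Int.gcd (v 0) (v 1) : ℤ) (v 2) := by ring
    _ = 1 := by rw [← e1, ← e2]

lemma card_mult (X : ℕ) (l : ℕ) (hl : 1 ≤ l) :
    (((Finset.Ioc (0 : ℤ) X).filter fun x => (l : ℤ) ∣ x).card : ℝ) ≤ X / l := by
  have h := Int.Ioc_filter_dvd_card (0 : ℤ) (X : ℤ) (r := (l : ℤ)) (by omega)
  have h2 : (((Finset.Ioc (0 : ℤ) X).filter fun x => (l : ℤ) ∣ x).card : ℤ) ≤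
      ⌊((X : ℤ) : ℚ) / ((l : ℤ) : ℚ)⌋ := by
    rw [h]
    apply max_le
    · simp
    · positivity
  have h3 : ((⌊((X : ℤ) : ℚ) / ((l : ℤ) : ℚ)⌋ : ℤ) : ℚ) ≤ ((X : ℤ) : ℚ) / ((l : ℤ) : ℚ) :=
    Int.floor_le _
  have h4 : (((Finset.Ioc (0 : ℤ) X).filter fun x => (l : ℤ) ∣ x).card : ℚ) ≤
      (X : ℚ) / l := by
    calc (((Finset.Ioc (0 : ℤ) X).filter fun x => (l : ℤ) ∣ x).card : ℚ)
        = ((((Finset.Ioc (0 : ℤ) X).filter fun x => (l : ℤ) ∣ x).card : ℤ) : ℚ) := by simp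
      _ ≤ ((⌊((X : ℤ) : ℚ) / ((l : ℤ) : ℚ)⌋ : ℤ) : ℚ) := by exact_mod_cast h2
      _ ≤ _ := by simpa using h3
  have h5 := (Rat.cast_le (K := ℝ)).mpr h4
  push_cast at h5
  exact h5

lemma sum_cube (n : ℕ) (hn : 1 ≤ n) :
    ∑ l ∈ Finset.Icc 2 n, 1 / (l : ℝ) ^ 3 ≤
      (1 / 4 : ℝ) - 1 / (2 * (n : ℝ) * ((n : ℝ) + 1)) := by
  induction n, hn using Nat.le_induction with
  | base => norm_num
  | succ n hn ih =>
    rw [Finset.sum_Icc_succ_top (by omega)]
    have hn0 : (1 : ℝ) ≤ n := by exact_mod_cast hn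
    have h1 : 1 / ((n + 1 : ℕ) : ℝ) ^ 3 ≤ 1 / (2 * (n : ℝ) * (n + 1)) -
        1 / (2 * ((n + 1 : ℕ) : ℝ) * (((n + 1 : ℕ) : ℝ) + 1)) := by
      push_cast
      have e : 1 / (2 * (n : ℝ) * (n + 1)) - 1 / (2 * ((n : ℝ) + 1) * ((n : ℝ) + 1 + 1)) =
          1 / ((n : ℝ) * (n + 1) * (n + 2)) := by
        field_simp
        ring
      rw [e]
      apply one_div_le_one_div_of_le (by positivity)
      nlinarith
    linarith

open Classical in
lemma nonprim (X : ℕ) (hX : 1 ≤ X) :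
    (((PB X).filter fun v => ¬ Prim v).card : ℝ) ≤ (X : ℝ) ^ 3 / 4 := by
  have hsub : (PB X).filter (fun v => ¬ Prim v) ⊆ (Finset.Icc 2 X).biUnion fun l =>
      Fintype.piFinset fun _ : Fin 3 => (Finset.Ioc (0 : ℤ) X).filter fun x => (l : ℤ) ∣ x := by
    intro v hv
    rw [mem_filter, PB, Fintype.mem_piFinset] at hv
    obtain ⟨hv1, hv2⟩ := hv
    have h0 := Finset.mem_Ioc.mp (hv1 0)
    have h1 : ∃ l : ℤ, 2 ≤ l ∧ ∀ i, l ∣ v i := by
      by_contra hc
      push Not at hc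
      apply hv2
      apply prim_of h0.1
      intro l hl hall
      obtain ⟨i, hi⟩ := hc l hl
      exact hi (hall i)
    obtain ⟨l, hl, hall⟩ := h1
    have hle : l ≤ v 0 := Int.le_of_dvd h0.1 (hall 0)
    rw [mem_biUnion]
    refine ⟨l.toNat, ?_, ?_⟩
    · rw [Finset.mem_Icc]
      have := h0.2
      omega
    · rw [Fintype.mem_piFinset]
      intro i
      rw [mem_filter]
      refine ⟨hv1 i, ?_⟩
      have : ((l.toNat : ℕ) : ℤ) = l := Int.toNat_of_nonneg (by omega)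
      rw [this]
      exact hall i
  have h1 : (((PB X).filter fun v => ¬ Prim v).card : ℝ) ≤
      ∑ l ∈ Finset.Icc 2 X, ((Fintype.piFinset fun _ : Fin 3 =>
        (Finset.Ioc (0 : ℤ) X).filter fun x => (l : ℤ) ∣ x).card : ℝ) := by
    have := (Finset.card_le_card hsub).trans Finset.card_biUnion_le
    exact_mod_cast this
  have h2 : ∀ l ∈ Finset.Icc 2 X, ((Fintype.piFinset fun _ : Fin 3 =>
        (Finset.Ioc (0 : ℤ) X).filter fun x => (l : ℤ) ∣ x).card : ℝ) ≤
        (X : ℝ) ^ 3 * (1 / (l : ℝ) ^ 3) := by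
    intro l hl
    rw [Finset.mem_Icc] at hl
    have h3 := card_mult X l (by omega)
    rw [Fintype.card_piFinset]
    simp only [Finset.prod_const, Finset.card_univ, Fintype.card_fin]
    push_cast
    calc _ ≤ ((X : ℝ) / l) ^ 3 := by
            apply pow_le_pow_left₀ (by positivity) h3
      _ = _ := by rw [div_pow]; ring
  have h4 := Finset.sum_le_sum h2
  rw [← Finset.mul_sum] at h4
  have h5 := sum_cube X hX
  have h6 : (0 : ℝ) ≤ 1 / (2 * (X : ℝ) * (X + 1)) := by positivity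
  have h7 : (X : ℝ) ^ 3 * ∑ l ∈ Finset.Icc 2 X, 1 / (l : ℝ) ^ 3 ≤ (X : ℝ) ^ 3 * (1 / 4) := by
    apply mul_le_mul_of_nonneg_left _ (by positivity)
    linarith
  linarith

lemma small (X : ℕ) :
    (((PB X).filter fun v => ¬ ((X : ℤ) < 2 * nm v)).card : ℝ) ≤ (X : ℝ) ^ 3 / 8 := by
  have hsub : (PB X).filter (fun v => ¬ ((X : ℤ) < 2 * nm v)) ⊆ PB (X / 2) := by
    intro v hv
    rw [mem_filter, PB, Fintype.mem_piFinset] at hv
    rw [PB, Fintype.mem_piFinset]
    obtain ⟨hv1, hv2⟩ := hv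
    have h0 : |v 0| ≤ nm v := le_trans (le_max_left _ _) (le_max_left _ _)
    have h1 : |v 1| ≤ nm v := le_trans (le_max_right _ _) (le_max_left _ _)
    have h2 : |v 2| ≤ nm v := le_max_right _ _
    intro i
    have hi := Finset.mem_Ioc.mp (hv1 i)
    have hn : v i ≤ nm v := by
      have : ∀ j : Fin 3, |v j| ≤ nm v := by
        intro j
        fin_cases j
        · exact h0
        · exact h1
        · exact h2
      exact (le_abs_self _).trans (this i)
    rw [Finset.mem_Ioc]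
    refine ⟨hi.1, ?_⟩
    push_cast
    omega
  have h1 := Finset.card_le_card hsub
  rw [card_PB] at h1
  have h2 : (((X / 2 : ℕ) : ℝ)) ≤ (X : ℝ) / 2 := by
    have := Nat.cast_div_le (α := ℝ) (m := X) (n := 2)
    simpa using this
  calc (((PB X).filter fun v => ¬ ((X : ℤ) < 2 * nm v)).card : ℝ)
      ≤ (((X / 2 : ℕ) : ℝ)) ^ 3 := by exact_mod_cast h1
    _ ≤ ((X : ℝ) / 2) ^ 3 := by apply pow_le_pow_left₀ (by positivity) h2
    _ = _ := by ring

lemma zeros (F : MvPolynomial (Fin 3) ℤ) (hF : F ≠ 0) (X : ℕ) (hX : 1 ≤ X) :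
    (((PB X).filter fun v => MvPolynomial.eval v F = 0).card : ℝ) ≤
      F.totalDegree * (X : ℝ) ^ 2 := by
  have h := MvPolynomial.schwartz_zippel_totalDegree hF (Finset.Ioc (0 : ℤ) X)
  have hc : (Finset.Ioc (0 : ℤ) X).card = X := by simp
  rw [hc] at h
  have h2 : ((((PB X).filter fun v => MvPolynomial.eval v F = 0).card : ℚ)) / (X : ℚ) ^ 3 ≤
      (F.totalDegree : ℚ) / X := by
    have := NNRat.coe_le_coe.mpr h
    push_cast at this
    exact this
  have h3 : ((((PB X).filter fun v => MvPolynomial.eval v F = 0).card : ℝ)) / (X : ℝ) ^ 3 ≤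
      (F.totalDegree : ℝ) / X := by
    have h5 := (Rat.cast_le (K := ℝ)).mpr h2
    push_cast at h5
    exact h5
  have hX0 : (0 : ℝ) < X := by exact_mod_cast hX
  rw [div_le_div_iff₀ (by positivity) hX0] at h3
  have h4 : (((PB X).filter fun v => MvPolynomial.eval v F = 0).card : ℝ) * X ≤
      (F.totalDegree * (X : ℝ) ^ 2) * X := by
    calc _ ≤ _ := h3
      _ = _ := by ring
  exact le_of_mul_le_mul_right h4 hX0

theorem l2 : S_L2 := by
  classical
  intro b hb
  obtain ⟨p0, hp0⟩ := hb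
  set F : MvPolynomial (Fin 3) ℤ :=
    (Matrix.of (mp b (fun i => (MvPolynomial.X i : MvPolynomial (Fin 3) ℤ)))).det with hFdef
  have hmap : ∀ (R : Type) [CommRing R] (φ : MvPolynomial (Fin 3) ℤ →+* R) (q : Fin 3 → R),
      (∀ i, φ (MvPolynomial.X i) = q i) → φ F = (Matrix.of (mp b q)).det := by
    intro R _ φ q hq
    rw [hFdef, RingHom.map_det]
    congr 1
    ext k j
    simp [mp, hq]
  have hF : F ≠ 0 := by
    intro h0
    apply hp0
    rw [← hmap ℂ (MvPolynomial.eval₂Hom (Int.castRingHom ℂ) p0) p0 (by intro i; simp), h0,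
      map_zero]
  have hev : ∀ v : Fin 3 → ℤ, MvPolynomial.eval v F = dm (mp b v) := by
    intro v
    rw [dm]
    exact hmap ℤ (MvPolynomial.eval v) v (by intro i; simp)
  refine ⟨1 / 2, 8 * F.totalDegree + 1, by norm_num, fun X hX => ?_⟩
  have hX1 : 1 ≤ X := by omega
  have hsub : PB X ⊆ ((((bx X).filter fun p => Rep p ∧ (X : ℤ) < 2 * nm p ∧ dm (mp b p) ≠ 0) ∪
      ((PB X).filter fun v => ¬ Prim v)) ∪ ((PB X).filter fun v => ¬ ((X : ℤ) < 2 * nm v))) ∪
      ((PB X).filter fun v => MvPolynomial.eval v F = 0) := by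
    intro v hv
    by_cases h1 : Prim v
    · by_cases h2 : (X : ℤ) < 2 * nm v
      · by_cases h3 : MvPolynomial.eval v F = 0
        · apply mem_union_right
          rw [mem_filter]
          exact ⟨hv, h3⟩
        · apply mem_union_left
          apply mem_union_left
          apply mem_union_left
          rw [mem_filter]
          have hv' := hv
          rw [PB, Fintype.mem_piFinset] at hv'
          refine ⟨?_, ⟨h1, Or.inl (Finset.mem_Ioc.mp (hv' 0)).1⟩, h2, ?_⟩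
          · rw [bx, Fintype.mem_piFinset]
            intro i
            have := Finset.mem_Ioc.mp (hv' i)
            rw [Finset.mem_Icc]
            constructor
            · omega
            · exact this.2
          · rw [← hev]
            exact h3
      · apply mem_union_left
        apply mem_union_right
        rw [mem_filter]
        exact ⟨hv, h2⟩
    · apply mem_union_left
      apply mem_union_left
      apply mem_union_right
      rw [mem_filter]
      exact ⟨hv, h1⟩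
  have hc := Finset.card_le_card hsub
  have hc2 := (hc.trans (Finset.card_union_le _ _)).trans
    (Nat.add_le_add_right ((Finset.card_union_le _ _).trans
      (Nat.add_le_add_right (Finset.card_union_le _ _) _)) _)
  rw [card_PB] at hc2
  have hc3 : (X : ℝ) ^ 3 ≤
      (((bx X).filter fun p => Rep p ∧ (X : ℤ) < 2 * nm p ∧ dm (mp b p) ≠ 0).card : ℝ) +
      (((PB X).filter fun v => ¬ Prim v).card : ℝ) +
      (((PB X).filter fun v => ¬ ((X : ℤ) < 2 * nm v)).card : ℝ) +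
      (((PB X).filter fun v => MvPolynomial.eval v F = 0).card : ℝ) := by
    exact_mod_cast hc2
  have e1 := nonprim X hX1
  have e2 := small X
  have e3 := zeros F hF X hX1
  have e4 : (F.totalDegree : ℝ) * (X : ℝ) ^ 2 ≤ (X : ℝ) ^ 3 / 8 := by
    have hh : 8 * (F.totalDegree : ℝ) + 1 ≤ X := by exact_mod_cast hX
    have hx2 : (0 : ℝ) ≤ (X : ℝ) ^ 2 := by positivity
    nlinarith
  have e5 : (1 / 2 : ℝ) * (X : ℝ) ^ 3 ≤
      (((bx X).filter fun p => Rep p ∧ (X : ℤ) < 2 * nm p ∧ dm (mp b p) ≠ 0).card : ℝ) := by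
    linarith
  convert e5 using 3

end Pool.Agent.W831.QO
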